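import Pool.Agent.Helper13_Eng2.Stmts

/-! ENG2 module VBM: `b (Λ b Λ) = 1`. -/

set_option autoImplicit false

namespace Pool.Agent.Eng.H25

open Matrix

theorem vbm (hpf : LpfStmt) : VbmStmt := by
  intro ι K _ _ _ m lam hc hinj hprod hne
  obtain ⟨hF, hS⟩ := hpf ι K m lam hc hinj hprod hne
  set l := ell m lam with hl
  set b := bmat m lam with hb
  have hbdef : ∀ i j, b i j = (l j - if i = j then 1 else 0) / (1 + lam i * lam j) := fun i j => rfl
  have hsym : ∀ i j, 1 + lam i * lam j = 1 + lam j * lam i := fun i j => by ring
  -- row sums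
  have hrow : ∀ i, ∑ j, b i j = 1 := by
    intro i
    have : ∀ j, b i j = l j / (1 + lam i * lam j) -
        (if i = j then 1 / (1 + lam i * lam j) else 0) := by
      intro j
      rw [hbdef]
      split_ifs <;> ring
    rw [Finset.sum_congr rfl (fun j _ => this j), Finset.sum_sub_distrib, hF i,
      Finset.sum_ite_eq Finset.univ i]
    simp
  -- the Sylvester relation
  have hsyl : ∀ i j, b i j + lam i * b i j * lam j = l j - if i = j then 1 else 0 := by
    intro i j
    rw [hbdef]
    have := hne i j
    field_simp
  -- second row sums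
  have hrow2 : ∀ i, ∑ j, lam i * b i j * lam j = 1 := by
    intro i
    have h1 : ∀ j, lam i * b i j * lam j = (l j - if i = j then 1 else 0) - b i j := by
      intro j
      rw [← hsyl i j]; ring
    rw [Finset.sum_congr rfl (fun j _ => h1 j), Finset.sum_sub_distrib, Finset.sum_sub_distrib,
      hS, hrow i, Finset.sum_ite_eq Finset.univ i]
    simp
    norm_num
  -- off diagonal entries
  have hoff : ∀ i j, i ≠ j → ∑ k, b i k * (lam k * b k j * lam j) = 0 := by
    intro i j hij
    have hlij : lam i - lam j ≠ 0 := fun h => hij (hinj (sub_eq_zero.mp h))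
    have h1 : ∑ k, l k * lam k / ((1 + lam i * lam k) * (1 + lam j * lam k)) =
        ((1 + 1 / (1 + lam j * lam j)) - (1 + 1 / (1 + lam i * lam i))) / (lam i - lam j) := by
      rw [eq_div_iff hlij, Finset.sum_mul, ← hF i, ← hF j, ← Finset.sum_sub_distrib]
      refine Finset.sum_congr rfl fun k _ => ?_
      have h1 := hne i k
      have h2 := hne j k
      rw [div_mul_eq_mul_div, div_sub_div _ _ h2 h1,
        div_eq_div_iff (mul_ne_zero h1 h2) (mul_ne_zero h2 h1)]
      ring
    have h2 : ∀ k, b i k * (lam k * b k j * lam j) = lam j * (l j *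
        (l k * lam k / ((1 + lam i * lam k) * (1 + lam j * lam k)))) -
        (if k = j then lam j * (l j * (lam j / ((1 + lam i * lam j) * (1 + lam j * lam j))))
          else 0) -
        (if i = k then lam j * (l j * (lam i / ((1 + lam i * lam i) * (1 + lam i * lam j))))
          else 0) := by
      intro k
      rw [hbdef, hbdef]
      have e1 := hne i k
      have e2 := hne k j
      have e3 := hne j k
      by_cases hkj : k = j
      · subst hkj
        rw [if_neg hij, if_neg hij, if_pos rfl, if_pos rfl]
        have e4 := hne k k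
        field_simp
        ring
      · rw [if_neg hkj, if_neg hkj]
        by_cases hik : i = k
        · subst hik
          rw [if_pos rfl, if_pos rfl]
          have e4 := hne i i
          rw [hsym j i]
          field_simp
          ring
        · rw [if_neg hik, if_neg hik, hsym j k]
          field_simp
          ring
    rw [Finset.sum_congr rfl (fun k _ => h2 k), Finset.sum_sub_distrib, Finset.sum_sub_distrib,
      ← Finset.mul_sum, ← Finset.mul_sum, h1, Finset.sum_ite_eq' Finset.univ j,
      Finset.sum_ite_eq Finset.univ i]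
    simp only [Finset.mem_univ, if_true]
    have hx := hne i i
    have hy := hne j j
    have hz := hne i j
    have hq : ((1 + 1 / (1 + lam j * lam j)) - (1 + 1 / (1 + lam i * lam i))) / (lam i - lam j)
        = lam j / ((1 + lam i * lam j) * (1 + lam j * lam j))
          + lam i / ((1 + lam i * lam i) * (1 + lam i * lam j)) := by
      rw [div_add_div _ _ (mul_ne_zero hz hy) (mul_ne_zero hx hz), add_sub_add_left_eq_sub,
        div_sub_div _ _ hy hx, div_div, div_eq_div_iff (mul_ne_zero (mul_ne_zero hy hx) hlij)
          (mul_ne_zero (mul_ne_zero hz hy) (mul_ne_zero hx hz))]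
      ring
    rw [hq]
    ring
  -- conclusion
  ext i j
  rw [Matrix.mul_apply]
  have e0 : ∀ k, (Matrix.diagonal lam * b * Matrix.diagonal lam) k j = lam k * b k j * lam j := by
    intro k
    rw [Matrix.mul_diagonal, Matrix.diagonal_mul]
  rw [Finset.sum_congr rfl (fun k _ => by rw [e0 k])]
  by_cases hij : i = j
  · subst hij
    rw [Matrix.one_apply_eq]
    have h1 : ∑ j, ∑ k, b i k * (lam k * b k j * lam j) = 1 := by
      rw [Finset.sum_comm, Finset.sum_congr rfl (fun k _ => by
        rw [← Finset.mul_sum, hrow2 k, mul_one]), hrow i]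
    rw [Finset.sum_eq_single i (fun k _ hk => hoff i k (Ne.symm hk)) (by simp)] at h1
    exact h1
  · rw [Matrix.one_apply_ne hij]
    exact hoff i j hij

end Pool.Agent.Eng.H25
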