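import Pool.Agent.Helper13_Eng2.Stmts

/-! ENG2 module X4: `PSU(3,q)`, `q` even. -/

set_option autoImplicit false

namespace Pool.Agent.Eng.H25

theorem pd_dvd' {G : Type} [Group G] {M N : ℕ} (h : PD G M) (hN : N ∣ M) : PD G N :=
  fun d hd hl => hN.trans (h d hd hl)

/-- an element of given order -/
theorem exists_order (K : Type) [Field K] [Finite K] (r : ℕ) (hr : r ∣ Nat.card K - 1) :
    ∃ x : K, x ≠ 0 ∧ orderOf x = r := by
  have hdvd : r ∣ Nat.card Kˣ := by rw [Nat.card_units]; exact hr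
  obtain ⟨v, hv⟩ := IsCyclic.exists_generator (α := Kˣ)
  have hv' : orderOf v = Nat.card Kˣ := orderOf_eq_card_of_forall_mem_zpowers hv
  obtain ⟨e, he⟩ := hdvd
  have he0 : e ≠ 0 := by
    rintro rfl
    rw [mul_zero] at he
    exact Nat.card_pos.ne' he
  refine ⟨((v ^ e : Kˣ) : K), Units.ne_zero _, ?_⟩
  rw [orderOf_units, orderOf_pow' v he0, hv', he, Nat.gcd_eq_right (dvd_mul_left _ _)]
  exact Nat.mul_div_cancel _ (Nat.pos_of_ne_zero he0)

theorem exists_om (K : Type) [Field K] [Finite K] (hr : 3 ∣ Nat.card K - 1) :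
    ∃ om : K, om ^ 2 + om + 1 = 0 ∧ om ^ 3 = 1 := by
  obtain ⟨x, -, hx⟩ := exists_order K 3 hr
  have h3 : x ^ 3 = 1 := by rw [← hx]; exact pow_orderOf_eq_one x
  refine ⟨x, ?_, h3⟩
  have h1 : x ≠ 1 := by
    rintro rfl
    rw [orderOf_one] at hx
    omega
  have h2 : (x - 1) * (x ^ 2 + x + 1) = 0 := by
    have : (x - 1) * (x ^ 2 + x + 1) = x ^ 3 - 1 := by ring
    rw [this, h3, sub_self]
  rcases mul_eq_zero.mp h2 with h | h
  · exact absurd (sub_eq_zero.mp h) h1
  · exact h

theorem star_ne (K : Type) [Field K] [Finite K] [StarRing K] (q : ℕ) (hK : StarQ K q) :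
    ∃ x : K, star x ≠ x := by
  have h2 := hK.two_le
  by_contra hcon
  push Not at hcon
  obtain ⟨x, hx0, hx⟩ := exists_order K (Nat.card K - 1) dvd_rfl
  have h1 : x ^ (q - 1) = 1 := by
    have h3 := hcon x
    rw [hK.star, (by omega : q = q - 1 + 1), pow_succ] at h3
    have h4 : x ^ (q - 1) * x = 1 * x := by rw [one_mul]; exact h3
    exact mul_right_cancel₀ hx0 h4
  have h5 := orderOf_dvd_of_pow_eq_one h1
  rw [hx, hK.card] at h5
  have h6 := Nat.le_of_dvd (by omega) h5
  have h7 : q < q ^ 2 := by nlinarith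
  omega

/-- `q` is a power of two -/
theorem pow_two (K : Type) [Field K] [Finite K] [StarRing K] (q : ℕ) (hK : StarQ K q)
    (h2 : (2 : K) = 0) : ∃ f : ℕ, q = 2 ^ f := by
  haveI := Fintype.ofFinite K
  haveI : CharP K 2 := by
    obtain ⟨p, hp⟩ := CharP.exists K
    have hp' : p.Prime := (CharP.char_is_prime_or_zero K p).resolve_right
      (CharP.char_ne_zero_of_finite K p)
    have h3 : p ∣ 2 := by
      rw [← CharP.cast_eq_zero_iff K p 2]
      exact_mod_cast h2
    have h4 : p = 2 := (Nat.prime_dvd_prime_iff_eq hp' Nat.prime_two).mp h3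
    rw [← h4]
    exact hp
  obtain ⟨n, -, hn⟩ := FiniteField.card K 2
  have h3 : q ^ 2 = 2 ^ (n : ℕ) := by
    rw [← hn, ← hK.card, Nat.card_eq_fintype_card]
  have h4 : q ∣ 2 ^ (n : ℕ) := by
    rw [← h3]
    exact dvd_pow_self q two_ne_zero
  obtain ⟨f, -, hf⟩ := (Nat.dvd_prime_pow Nat.prime_two).mp h4
  exact ⟨f, hf⟩

theorem mod_three (f : ℕ) : 2 ^ f % 3 = 1 ∨ 2 ^ f % 3 = 2 := by
  induction f with
  | zero => left; norm_num
  | succ f ih =>
    rw [pow_succ]
    omega

theorem q_eq (K : Type) [Field K] [StarRing K] (q q' : ℕ) (hK : StarQ K q)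
    (hK' : StarQ K q') : q' = q := by
  have h1 : q' ^ 2 = q ^ 2 := by rw [← hK'.card, hK.card]
  exact Nat.pow_left_injective (n := 2) (by norm_num) h1

theorem x4 (hq : HqStmt) (h5 : X5Stmt) (h8 : X8Stmt) (hsp : HspStmt) : X4Stmt := by
  intro K _ _ _ q hK h2 hq3
  have hne := star_ne K q hK
  obtain ⟨f, hf⟩ := pow_two K q hK h2
  obtain ⟨q', F, _, _, _, hK', hF, hfix⟩ := hq K hne
  have hqq := q_eq K q q' hK hK'
  subst hqq
  have h2F : (2 : F) = 0 := by
    have h3 : algebraMap F K 2 = 0 := by rw [map_ofNat, h2]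
    exact (map_eq_zero (algebraMap F K)).mp h3
  rcases mod_three f with h | h
  · -- `3 ∣ q - 1`
    rw [← hf] at h
    obtain ⟨om, hom, -⟩ := exists_om F (by rw [hF]; omega)
    exact hsp F K 1 3 4 hne hfix le_rfl (by norm_num) (h5 F om h2F hom).1
  · rw [← hf] at h
    have h9 : 3 ∣ Nat.card K - 1 := by
      rw [hK.card]
      have h4 : q' ^ 2 % 3 = 1 := by rw [Nat.pow_mod, h]
      have h6 : 0 < q' ^ 2 := by positivity
      omega
    obtain ⟨om, hom, hom3⟩ := exists_om K h9
    have hst : star om = om ^ 2 := by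
      rw [hK.star]
      have h4 : q' = 3 * (q' / 3) + 2 := by omega
      rw [h4, pow_add, pow_mul, hom3, one_pow, one_mul]
    exact pd_dvd' (h8 K om h2 hom hst) (by norm_num)

theorem x3 (hq : HqStmt) (h5 : X5Stmt) (hesp : EspStmt) (hxr : XrStmt) (hsp : HspStmt) :
    X3Stmt := by
  intro K _ _ _ q hK h2 hq3
  have hne := star_ne K q hK
  obtain ⟨f, hf⟩ := pow_two K q hK h2
  obtain ⟨q', F, _, _, _, hK', hF, hfix⟩ := hq K hne
  have hqq := q_eq K q q' hK hK'
  subst hqq
  have h2F : (2 : F) = 0 := by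
    have h3 : algebraMap F K 2 = 0 := by rw [map_ofNat, h2]
    exact (map_eq_zero (algebraMap F K)).mp h3
  rcases mod_three f with h | h
  · -- `3 ∣ q - 1`
    rw [← hf] at h
    obtain ⟨om, hom, -⟩ := exists_om F (by rw [hF]; omega)
    exact hsp F K 1 3 3 hne hfix le_rfl (by norm_num) (h5 F om h2F hom).2
  · by_cases h9 : 9 ∣ q' + 1
    · have h10 : PD (PSp 1 F) (3 ^ 2) := hesp F 3 2 1 Nat.prime_three (by norm_num) (by norm_num)
        le_rfl (Or.inr (by rw [hF, pow_one]; exact h9)) (by norm_num)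
      exact pd_dvd' (hsp F K 1 3 _ hne hfix le_rfl (by norm_num) h10) (by norm_num)
    · have hf2 : 2 ≤ f := by
        by_contra hcon
        interval_cases f <;> omega
      have hev : 2 ∣ q' := by
        rw [hf]
        exact dvd_pow_self 2 (by omega)
      rw [← hf] at h
      obtain ⟨t, ht⟩ : 3 ∣ q' + 1 := by omega
      have ht1 : t ≠ 1 := by omega
      have hr := Nat.minFac_prime ht1
      have hrt := Nat.minFac_dvd t
      have hrq : Nat.minFac t ∣ q' + 1 := by
        rw [ht]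
        exact hrt.trans (dvd_mul_left _ _)
      have hr2 : Nat.minFac t ≠ 2 := by
        intro h3
        rw [h3] at hrq
        omega
      have hr3 : Nat.minFac t ≠ 3 := by
        intro h3
        rw [h3] at hrt
        obtain ⟨s, hs⟩ := hrt
        apply h9
        exact ⟨s, by rw [ht, hs]; ring⟩
      have hr4 : Nat.minFac t ≠ 4 := by
        intro h3
        rw [h3] at hr
        exact absurd hr (by norm_num)
      have hr5 : 5 ≤ Nat.minFac t := by
        have := hr.two_le
        omega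
      exact hxr K q' _ hK hr hr5 hrq

end Pool.Agent.Eng.H25
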